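import Pool.Agent.H78.KK.Cha
import Pool.Agent.H95.MT.Hsh

/-!
ROW Gad.  The gadget graph for sums of three hidden symbols.

`Γ = Fin 2 → Fin 3 → ZMod d`. Parts `(m, b, j)`, `m : Fin M`, `b : Fin 2`, `j : Fin 4`; every part has the vertices `(c, u)`, `c : Fin I`, `u : Fin 3 → ZMod d`; in addition
`D = k - 8M` dummy vertices. `W = ((Fin M × Fin 2 × Fin 4) × (Fin I × (Fin 3 → ZMod d))) ⊕ Fin D` has `8 M I d³ + D ≤ n` elements; take an embedding `emb : W ↪ Fin n` and `G S = (GW S).map emb`.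
Meaning: the auxiliary vertex of `(m, b, j)`, `j < 3` (`Fin.castSucc`): `u κ = α (κ, H m κ) b j`; the live vertex of `(m, b, 3)`: `u j = Σ_κ α (κ, H m κ) b j`.
Adjacency in `GW S` (symmetric; vertices of the same part are not adjacent):
* dummy and dummy: iff different; dummy and other: yes;
* live `(m, b; c, u)` and live `(m', b'; c', u')`: if `m ≠ m'` yes; if `m = m'`, `b ≠ b'`, with labels `(c₀, u₀)` of `b = 0` and `(c₁, u₁)` of `b = 1`: iff
  `(finProdFinEquiv (c₀, c₁), (m, ![u₀, u₁])) ∈ S`;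
* live `(m, b; c, u)` and auxiliary `(m', b', j; c', u')`: if `m = m'` and `b = b'`: iff `c = c'` and `u j = Σ_κ u' κ`; otherwise yes;
* auxiliary `(m, b, j; c, u)` and `(m', b', j'; c', u')` in different parts: if `b ≠ b'` yes; if `b = b'`: iff `c = c'` and (`j = j'` implies `u κ = u' κ` for all `κ` with `H m κ = H m' κ`).
1. monotone, 2. every pair is constant or one element: clear (pairs of `Fin n` not in the range of `emb` are never adjacent). See the gadget of Pool/Agent/H78/KK/Gad.lean (helper61) for the technique.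
3. Positive: `c = finProdFinEquiv (c₀, c₁)`, the vertices `(m, b, j)` with labels `(c_b, ·)` as in `Meaning` and all dummies are a clique with `8M + D = k` vertices.
4. Negative: a clique with `k` vertices has one vertex in each of the `k` parts (dummies are parts). All labels `c` of the vertices with the same `b` are equal to one `c_b` (auxiliary vertices are adjacent, each live vertex is
  adjacent to an auxiliary one of the same `(m, b)`; `M ≥ 1`). Let `α (κ, v) b j` be `u κ` for the auxiliary vertex of `(m, b, j)` for any `m` with `H m κ = v` (well defined by adjacency; arbitrary if there is no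
  such `m`). Then the live label of `(m, b)` is `j ↦ Σ_κ α (κ, H m κ) b j`, and the live vertices `(m, 0)`, `(m, 1)` are adjacent: `(c, (m, Σ_κ α (κ, H m κ))) ∈ S`.
-/

namespace Pool.Agent.H78.KC

open Finset Classical
open Pool.Agent.H95.MT (Yh)
open Pool.Agent.H78.KK (put)

/-- symbols -/
abbrev Sy (d : ℕ) := Fin 2 → Fin 3 → ZMod d

section Gad

variable {I V M d D : ℕ}

/-- vertices of the gadget -/
abbrev Gad_W (I M d D : ℕ) :=
  (((Fin M × Fin 2 × Fin 3) ⊕ (Fin M × Fin 2)) × (Fin I × (Fin 3 → ZMod d))) ⊕ Fin D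

/-- the adjacency of the gadget -/
def Gad_A (H : Fin M → Fin 3 → Fin V) (S : Finset (Fin (I * I) × (Fin M × Sy d))) :
    Gad_W I M d D → Gad_W I M d D → Prop
  | Sum.inr e, Sum.inr e' => e ≠ e'
  | Sum.inr _, Sum.inl _ => True
  | Sum.inl _, Sum.inr _ => True
  | Sum.inl (Sum.inl (m, b, j), (c, u)), Sum.inl (Sum.inl (m', b', j'), (c', u')) =>
      (m, b, j) ≠ (m', b', j') ∧
        (b ≠ b' ∨ (c = c' ∧ (j = j' → ∀ κ, H m κ = H m' κ → u κ = u' κ)))
  | Sum.inl (Sum.inr (m, b), (c, u)), Sum.inl (Sum.inl (m', b', j), (c', u')) =>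
      m ≠ m' ∨ b ≠ b' ∨ (c = c' ∧ u j = ∑ κ, u' κ)
  | Sum.inl (Sum.inl (m', b', j), (c', u')), Sum.inl (Sum.inr (m, b), (c, u)) =>
      m ≠ m' ∨ b ≠ b' ∨ (c = c' ∧ u j = ∑ κ, u' κ)
  | Sum.inl (Sum.inr (m, b), (c, u)), Sum.inl (Sum.inr (m', b'), (c', u')) =>
      m ≠ m' ∨ (b = 0 ∧ b' = 1 ∧ (finProdFinEquiv (c, c'), (m, ![u, u'])) ∈ S) ∨
        (b = 1 ∧ b' = 0 ∧ (finProdFinEquiv (c', c), (m, ![u', u])) ∈ S)

/-- the part of a vertex -/
def Gad_part : Gad_W I M d D → ((Fin M × Fin 2 × Fin 3) ⊕ (Fin M × Fin 2)) ⊕ Fin D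
  | Sum.inr e => Sum.inr e
  | Sum.inl (p, _) => Sum.inl p

theorem Gad_symm (H : Fin M → Fin 3 → Fin V) (S : Finset (Fin (I * I) × (Fin M × Sy d)))
    (a b : Gad_W I M d D) (hab : Gad_A H S a b) : Gad_A H S b a := by
  rcases a with ⟨⟨m1, b1, j1⟩ | ⟨m1, b1⟩, c1, u1⟩ | e1 <;>
    rcases b with ⟨⟨m2, b2, j2⟩ | ⟨m2, b2⟩, c2, u2⟩ | e2 <;>
    simp only [Gad_A] at hab ⊢
  · refine ⟨fun e => hab.1 e.symm, ?_⟩
    rcases hab.2 with h | ⟨h1, h2⟩
    · exact Or.inl (fun e => h e.symm)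
    · exact Or.inr ⟨h1.symm, fun hj κ hκ => (h2 hj.symm κ hκ.symm).symm⟩
  · exact hab
  · exact hab
  · rcases hab with hab | ⟨h1, h2, h3⟩ | ⟨h1, h2, h3⟩
    · exact Or.inl (fun e => hab e.symm)
    · by_cases hm : m1 = m2
      · subst hm; exact Or.inr (Or.inr ⟨h2, h1, h3⟩)
      · exact Or.inl (fun e => hm e.symm)
    · by_cases hm : m1 = m2
      · subst hm; exact Or.inr (Or.inl ⟨h2, h1, h3⟩)
      · exact Or.inl (fun e => hm e.symm)
  · exact fun e => hab e.symm

theorem Gad_ne (H : Fin M → Fin 3 → Fin V) (S : Finset (Fin (I * I) × (Fin M × Sy d)))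
    (a b : Gad_W I M d D) (hab : Gad_A H S a b) : Gad_part a ≠ Gad_part b := by
  rcases a with ⟨⟨m1, b1, j1⟩ | ⟨m1, b1⟩, c1, u1⟩ | e1 <;>
    rcases b with ⟨⟨m2, b2, j2⟩ | ⟨m2, b2⟩, c2, u2⟩ | e2 <;>
    simp only [Gad_A] at hab <;> simp only [Gad_part, ne_eq, Sum.inl.injEq, Sum.inr.injEq,
      reduceCtorEq, not_false_eq_true]
  · exact hab.1
  · intro e
    simp only [Prod.mk.injEq] at e
    rcases hab with hab | ⟨h1, h2, _⟩ | ⟨h1, h2, _⟩
    · exact hab e.1
    · have e2 := e.2; rw [h1, h2] at e2; exact absurd e2 (by decide)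
    · have e2 := e.2; rw [h1, h2] at e2; exact absurd e2 (by decide)
  · exact hab

/-- the gadget graph on `W` -/
def Gad_G (H : Fin M → Fin 3 → Fin V) (S : Finset (Fin (I * I) × (Fin M × Sy d))) :
    SimpleGraph (Gad_W I M d D) where
  Adj := Gad_A H S
  symm := ⟨Gad_symm H S⟩
  loopless := ⟨fun a ha => Gad_ne H S a a ha rfl⟩

theorem Gad_mono (H : Fin M → Fin 3 → Fin V) {S S' : Finset (Fin (I * I) × (Fin M × Sy d))}
    (hS : S ⊆ S') (a b : Gad_W I M d D) (hab : Gad_A H S a b) : Gad_A H S' a b := by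
  rcases a with ⟨⟨m1, b1, j1⟩ | ⟨m1, b1⟩, c1, u1⟩ | e1 <;>
    rcases b with ⟨⟨m2, b2, j2⟩ | ⟨m2, b2⟩, c2, u2⟩ | e2 <;>
    simp only [Gad_A] at hab ⊢
  · exact hab
  · exact hab
  · exact hab
  · rcases hab with hab | ⟨h1, h2, h3⟩ | ⟨h1, h2, h3⟩
    · exact Or.inl hab
    · exact Or.inr (Or.inl ⟨h1, h2, hS h3⟩)
    · exact Or.inr (Or.inr ⟨h1, h2, hS h3⟩)
  · exact hab

theorem Gad_one (H : Fin M → Fin 3 → Fin V) (a b : Gad_W I M d D) :
    (∀ S, Gad_A H S a b) ∨ (∀ S, ¬ Gad_A H S a b) ∨ ∃ e, ∀ S, Gad_A H S a b ↔ e ∈ S := by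
  rcases a with ⟨⟨m1, b1, j1⟩ | ⟨m1, b1⟩, c1, u1⟩ | e1 <;>
    rcases b with ⟨⟨m2, b2, j2⟩ | ⟨m2, b2⟩, c2, u2⟩ | e2 <;>
    simp only [Gad_A]
  · by_cases hh : (m1, b1, j1) ≠ (m2, b2, j2) ∧
        (b1 ≠ b2 ∨ (c1 = c2 ∧ (j1 = j2 → ∀ κ, H m1 κ = H m2 κ → u1 κ = u2 κ)))
    · exact Or.inl fun _ => hh
    · exact Or.inr (Or.inl fun _ => hh)
  · by_cases hh : m2 ≠ m1 ∨ b2 ≠ b1 ∨ (c2 = c1 ∧ u2 j1 = ∑ κ, u1 κ)
    · exact Or.inl fun _ => hh
    · exact Or.inr (Or.inl fun _ => hh)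
  · exact Or.inl fun _ => trivial
  · by_cases hh : m1 ≠ m2 ∨ b1 ≠ b2 ∨ (c1 = c2 ∧ u1 j2 = ∑ κ, u2 κ)
    · exact Or.inl fun _ => hh
    · exact Or.inr (Or.inl fun _ => hh)
  · by_cases hm : m1 = m2
    · subst hm
      by_cases h1 : b1 = 0 ∧ b2 = 1
      · right; right
        refine ⟨(finProdFinEquiv (c1, c2), (m1, ![u1, u2])), fun S => ?_⟩
        constructor
        · rintro (h2 | ⟨_, _, h2⟩ | ⟨h3, _, _⟩)
          · exact absurd rfl h2
          · exact h2
          · rw [h1.1] at h3; exact absurd h3 (by decide)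
        · intro h2; exact Or.inr (Or.inl ⟨h1.1, h1.2, h2⟩)
      · by_cases h1' : b1 = 1 ∧ b2 = 0
        · right; right
          refine ⟨(finProdFinEquiv (c2, c1), (m1, ![u2, u1])), fun S => ?_⟩
          constructor
          · rintro (h2 | ⟨h3, _, _⟩ | ⟨_, _, h2⟩)
            · exact absurd rfl h2
            · rw [h1'.1] at h3; exact absurd h3 (by decide)
            · exact h2
          · intro h2; exact Or.inr (Or.inr ⟨h1'.1, h1'.2, h2⟩)
        · right; left
          rintro S (h2 | ⟨h3, h4, _⟩ | ⟨h3, h4, _⟩)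
          · exact h2 rfl
          · exact h1 ⟨h3, h4⟩
          · exact h1' ⟨h3, h4⟩
    · exact Or.inl fun _ => Or.inl hm
  · exact Or.inl fun _ => trivial
  · exact Or.inl fun _ => trivial
  · exact Or.inl fun _ => trivial
  · by_cases hh : e1 ≠ e2
    · exact Or.inl fun _ => hh
    · exact Or.inr (Or.inl fun _ => hh)

theorem Gad_put {X : Type} [Fintype X] [DecidableEq X] {J : ℕ} (c : Fin J) (Y : Finset X) (z : Fin J × X) :
    z ∈ put c Y ↔ z.1 = c ∧ z.2 ∈ Y := by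
  simp [put]

theorem Gad_vec (s : Sy d) : (![s 0, s 1] : Sy d) = s := by
  funext b
  fin_cases b <;> rfl

/-- positive side -/
theorem Gad_pos [NeZero d] (H : Fin M → Fin 3 → Fin V) (S : Finset (Fin (I * I) × (Fin M × Sy d)))
    (c : Fin (I * I)) (α : Fin 3 × Fin V → Sy d) (hS : put c (Yh H α) ⊆ S) :
    ∃ s : Finset (Gad_W I M d D), (Gad_G H S).IsNClique (8 * M + D) s := by
  obtain ⟨⟨c0, c1⟩, rfl⟩ := finProdFinEquiv.surjective c
  set f : ((Fin M × Fin 2 × Fin 3) ⊕ (Fin M × Fin 2)) ⊕ Fin D → Gad_W I M d D := fun p =>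
    match p with
    | Sum.inl (Sum.inl (m, b, j)) => Sum.inl (Sum.inl (m, b, j), (if b = 0 then c0 else c1,
        fun κ => α (κ, H m κ) b j))
    | Sum.inl (Sum.inr (m, b)) => Sum.inl (Sum.inr (m, b), (if b = 0 then c0 else c1,
        fun j => ∑ κ, α (κ, H m κ) b j))
    | Sum.inr e => Sum.inr e with hf
  have hpart : ∀ p, Gad_part (f p) = p := by
    rintro ((⟨m, b, j⟩ | ⟨m, b⟩) | e) <;> rfl
  have hinj : Function.Injective f := fun p q hpq => by
    rw [← hpart p, ← hpart q, hpq]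
  have hmem : ∀ m : Fin M, (finProdFinEquiv (c0, c1),
      (m, (![fun j => ∑ κ, α (κ, H m κ) 0 j, fun j => ∑ κ, α (κ, H m κ) 1 j] : Sy d))) ∈ S := by
    intro m
    refine hS ((Gad_put _ _ _).2 ⟨rfl, ?_⟩)
    rw [Pool.Agent.H95.MT.mem_Yh]
    rw [← Gad_vec (∑ κ, α (κ, H m κ))]
    have e0 : (fun j => ∑ κ, α (κ, H m κ) 0 j) = (∑ κ, α (κ, H m κ)) 0 := by
      funext j
      simp only [Finset.sum_apply]
    have e1 : (fun j => ∑ κ, α (κ, H m κ) 1 j) = (∑ κ, α (κ, H m κ)) 1 := by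
      funext j
      simp only [Finset.sum_apply]
    show (![fun j => ∑ κ, α (κ, H m κ) 0 j, fun j => ∑ κ, α (κ, H m κ) 1 j] : Sy d) = _
    rw [e0, e1]
  refine ⟨univ.map ⟨f, hinj⟩, ?_, ?_⟩
  · rw [SimpleGraph.isClique_iff]
    intro a ha b hb hab
    simp only [coe_map, Function.Embedding.coeFn_mk, coe_univ, Set.image_univ, Set.mem_range] at ha hb
    obtain ⟨p, rfl⟩ := ha
    obtain ⟨q, rfl⟩ := hb
    have hpq : p ≠ q := fun e => hab (by rw [e])
    show Gad_A H S (f p) (f q)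
    rcases p with (⟨m1, b1, j1⟩ | ⟨m1, b1⟩) | e1 <;> rcases q with (⟨m2, b2, j2⟩ | ⟨m2, b2⟩) | e2 <;>
      simp only [hf, Gad_A]
    · refine ⟨fun e => hpq (by rw [e]), ?_⟩
      by_cases hb : b1 = b2
      · subst hb
        refine Or.inr ⟨rfl, fun hj κ hκ => ?_⟩
        subst hj
        rw [hκ]
      · exact Or.inl hb
    · by_cases hm : m2 = m1
      · by_cases hb : b2 = b1
        · subst hm hb
          exact Or.inr (Or.inr ⟨rfl, rfl⟩)
        · exact Or.inr (Or.inl hb)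
      · exact Or.inl hm
    · by_cases hm : m1 = m2
      · by_cases hb : b1 = b2
        · subst hm hb
          exact Or.inr (Or.inr ⟨rfl, rfl⟩)
        · exact Or.inr (Or.inl hb)
      · exact Or.inl hm
    · by_cases hm : m1 = m2
      · subst hm
        have hb : b1 ≠ b2 := fun e => hpq (by rw [e])
        right
        fin_cases b1 <;> fin_cases b2
        · exact absurd rfl hb
        · left; exact ⟨rfl, rfl, hmem m1⟩
        · right; exact ⟨rfl, rfl, hmem m1⟩
        · exact absurd rfl hb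
      · exact Or.inl hm
    · intro e; exact hpq (by rw [e])
  · simp only [card_map, card_univ, Fintype.card_sum, Fintype.card_prod, Fintype.card_fin]
    ring

theorem Gad_neg [NeZero d] (H : Fin M → Fin 3 → Fin V) (hM : 1 ≤ M)
    (S : Finset (Fin (I * I) × (Fin M × Sy d)))
    (s : Finset (Gad_W I M d D)) (hs : (Gad_G H S).IsNClique (8 * M + D) s) :
    ∃ (c : Fin (I * I)) (α : Fin 3 × Fin V → Sy d), put c (Yh H α) ⊆ S := by
  obtain ⟨hcl, hcard⟩ := hs
  have hadj : ∀ a ∈ s, ∀ b ∈ s, a ≠ b → Gad_A H S a b := fun a ha b hb hab => hcl ha hb hab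
  have hpinj : Set.InjOn (Gad_part (I := I) (M := M) (d := d) (D := D)) (s : Set _) := by
    intro a ha b hb hab
    by_contra hne
    exact Gad_ne H S a b (hadj a ha b hb hne) hab
  have hHu : s.image Gad_part = (univ : Finset (((Fin M × Fin 2 × Fin 3) ⊕ (Fin M × Fin 2)) ⊕ Fin D)) := by
    rw [← card_eq_iff_eq_univ, card_image_of_injOn hpinj, hcard]
    simp only [Fintype.card_sum, Fintype.card_prod, Fintype.card_fin]
    ring
  have hhit : ∀ p : (Fin M × Fin 2 × Fin 3) ⊕ (Fin M × Fin 2), ∃ c : Fin I, ∃ u : Fin 3 → ZMod d,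
      (Sum.inl (p, (c, u)) : Gad_W I M d D) ∈ s := by
    intro p
    have hp : (Sum.inl p : ((Fin M × Fin 2 × Fin 3) ⊕ (Fin M × Fin 2)) ⊕ Fin D) ∈ s.image Gad_part := by
      rw [hHu]; exact mem_univ _
    rw [mem_image] at hp
    obtain ⟨a, ha, hap⟩ := hp
    rcases a with ⟨p', c, u⟩ | e
    · simp only [Gad_part, Sum.inl.injEq] at hap
      subst hap
      exact ⟨c, u, ha⟩
    · simp only [Gad_part, reduceCtorEq] at hap
  choose cc uu hcu using hhit
  obtain ⟨m0, hm0⟩ : ∃ m0 : Fin M, m0 = ⟨0, hM⟩ := ⟨_, rfl⟩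
  have hcA : ∀ m b j, cc (Sum.inl (m, b, j)) = cc (Sum.inl (m0, b, 0)) := by
    intro m b j
    by_cases he : ((m, b, j) : Fin M × Fin 2 × Fin 3) = (m0, b, 0)
    · rw [he]
    · have h1 := hadj _ (hcu (Sum.inl (m, b, j))) _ (hcu (Sum.inl (m0, b, 0)))
        (fun e => he (by
          have e1 := Sum.inl_injective e
          exact Sum.inl_injective (congrArg Prod.fst e1)))
      simp only [Gad_A] at h1
      rcases h1.2 with h2 | h2
      · exact absurd rfl h2
      · exact h2.1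
  have hL : ∀ m b j, cc (Sum.inr (m, b)) = cc (Sum.inl (m, b, j)) ∧
      uu (Sum.inr (m, b)) j = ∑ κ, uu (Sum.inl (m, b, j)) κ := by
    intro m b j
    have h1 := hadj _ (hcu (Sum.inr (m, b))) _ (hcu (Sum.inl (m, b, j)))
      (fun e => by
        have e1 := congrArg Prod.fst (Sum.inl_injective e)
        exact absurd e1 (by simp))
    simp only [Gad_A] at h1
    rcases h1 with h2 | h2 | h2
    · exact absurd rfl h2
    · exact absurd rfl h2
    · exact h2
  have hcons : ∀ m m' b j κ, H m κ = H m' κ → uu (Sum.inl (m, b, j)) κ = uu (Sum.inl (m', b, j)) κ := by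
    intro m m' b j κ hκ
    by_cases he : m = m'
    · rw [he]
    · have h1 := hadj _ (hcu (Sum.inl (m, b, j))) _ (hcu (Sum.inl (m', b, j)))
        (fun e => he (by
          have e1 := Sum.inl_injective (congrArg Prod.fst (Sum.inl_injective e))
          exact congrArg Prod.fst e1))
      simp only [Gad_A] at h1
      rcases h1.2 with h2 | h2
      · exact absurd rfl h2
      · exact h2.2 trivial κ hκ
  set α : Fin 3 × Fin V → Sy d := fun p b j =>
    if h : ∃ m, H m p.1 = p.2 then uu (Sum.inl (h.choose, b, j)) p.1 else 0 with hα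
  have hαv : ∀ m κ b j, α (κ, H m κ) b j = uu (Sum.inl (m, b, j)) κ := by
    intro m κ b j
    have hex : ∃ m', H m' κ = H m κ := ⟨m, rfl⟩
    simp only [hα]
    rw [dif_pos hex]
    exact hcons _ _ _ _ _ hex.choose_spec
  have hlive : ∀ m b, uu (Sum.inr (m, b)) = (∑ κ, α (κ, H m κ)) b := by
    intro m b
    funext j
    rw [(hL m b j).2, Finset.sum_apply, Finset.sum_apply]
    exact sum_congr rfl fun κ _ => (hαv m κ b j).symm
  refine ⟨finProdFinEquiv (cc (Sum.inl (m0, 0, 0)), cc (Sum.inl (m0, 1, 0))), α, ?_⟩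
  intro z hz
  rw [Gad_put] at hz
  obtain ⟨hz1, hz2⟩ := hz
  rw [Pool.Agent.H95.MT.mem_Yh] at hz2
  obtain ⟨z1, m, z2⟩ := z
  simp only at hz1 hz2
  subst hz1 hz2
  have h1 := hadj _ (hcu (Sum.inr (m, 0))) _ (hcu (Sum.inr (m, 1)))
    (fun e => by
      have e1 := Sum.inr_injective (congrArg Prod.fst (Sum.inl_injective e))
      have e2 : (0 : Fin 2) = 1 := congrArg Prod.snd e1
      exact absurd e2 (by decide))
  simp only [Gad_A] at h1
  rcases h1 with h1 | h1 | h1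
  · exact absurd rfl h1
  · have h2 := h1.2.2
    rw [(hL m 0 0).1, (hL m 1 0).1, hcA m 0 0, hcA m 1 0, hlive, hlive, Gad_vec] at h2
    exact h2
  · exact absurd h1.1 (by decide)

end Gad

set_option synthInstance.maxSize 1000 in
theorem gadget {I V M d k n : ℕ} [NeZero d] (H : Fin M → Fin 3 → Fin V) (hM : 1 ≤ M)
    (hk : 8 * M ≤ k) (hn : 8 * M * (I * d ^ 3) + (k - 8 * M) ≤ n) :
    ∃ G : Finset (Fin (I * I) × (Fin M × Sy d)) → SimpleGraph (Fin n),
      (∀ S S', S ⊆ S' → G S ≤ G S') ∧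
      (∀ u v, (∀ S, (G S).Adj u v) ∨ (∀ S, ¬ (G S).Adj u v) ∨ ∃ e, ∀ S, (G S).Adj u v ↔ e ∈ S) ∧
      (∀ S c (α : Fin 3 × Fin V → Sy d), put c (Yh H α) ⊆ S → ¬ (G S).CliqueFree k) ∧
      ∀ S, ¬ (G S).CliqueFree k →
        ∃ (c : Fin (I * I)) (α : Fin 3 × Fin V → Sy d), put c (Yh H α) ⊆ S := by
  set D : ℕ := k - 8 * M with hD
  have hkD : 8 * M + D = k := by omega
  have hcardW : Fintype.card (Gad_W I M d D) ≤ n := by
    simp only [Fintype.card_sum, Fintype.card_prod, Fintype.card_fin, Fintype.card_fun, ZMod.card]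
    calc (M * (2 * 3) + M * 2) * (I * d ^ 3) + D = 8 * M * (I * d ^ 3) + D := by ring
      _ ≤ n := hn
  obtain ⟨emb⟩ : Nonempty (Gad_W I M d D ↪ Fin n) :=
    Function.Embedding.nonempty_of_card_le (by simpa using hcardW)
  refine ⟨fun S => (Gad_G H S).map emb, ?_, ?_, ?_, ?_⟩
  · intro S S' hS
    exact SimpleGraph.map_monotone emb (fun a b hab => Gad_mono H hS a b hab)
  · intro u v
    by_cases hu : ∃ a, emb a = u
    · by_cases hv : ∃ b, emb b = v
      · obtain ⟨a, rfl⟩ := hu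
        obtain ⟨b, rfl⟩ := hv
        have h1 : ∀ S, ((Gad_G H S).map emb).Adj (emb a) (emb b) ↔ Gad_A H S a b :=
          fun S => SimpleGraph.map_adj_apply
        simp only [h1]
        exact Gad_one H a b
      · right; left
        intro S hS
        obtain ⟨_, a, b, _, _, hb⟩ := hS
        exact hv ⟨b, hb⟩
    · right; left
      intro S hS
      obtain ⟨_, a, b, _, ha, _⟩ := hS
      exact hu ⟨a, ha⟩
  · intro S c α hS hfree
    obtain ⟨s, hs⟩ := Gad_pos (D := D) H S c α hS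
    rw [hkD] at hs
    exact hfree _ hs.map
  · intro S hS
    rw [SimpleGraph.CliqueFree] at hS
    push Not at hS
    obtain ⟨t, ht⟩ := hS
    have hl1 : 1 < k := by omega
    rw [SimpleGraph.isNClique_map_iff hl1] at ht
    obtain ⟨s, hs, _⟩ := ht
    rw [← hkD] at hs
    exact Gad_neg H hM S s hs

end Pool.Agent.H78.KC
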