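import Pool.Agent.H78.KW.Abs
import Pool.Agent.H78.KK.Noi
import Pool.Agent.H78.KC.Gad

/-!
The lower bound with explicit parameters.
-/

namespace Pool.Agent.H78.KC

open Finset Classical
open H13 (cnt)
open Pool.Agent.H95.MT (Yh card_Yh uniq_of_expanding hash_spread)
open Pool.Agent.H78.KK (Data pre put mem_put noise_le noise_ge block_contains)
open Pool.Agent.H78.KW (Circuit abs_bound)

set_option synthInstance.maxSize 1000 in
theorem explicit {n k V M I d g ρ e K l p q a s : ℕ} (hV : 1 ≤ V) (hM : 1 ≤ M) (hI : 1 ≤ I)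
    (hd : 1 ≤ d) (hg : 1 ≤ g) (hρ : 1 ≤ ρ) (he : 1 ≤ e) (hρK : K < 2 ^ ρ)
    (h1 : 5 * K ≤ 3 * (3 * V)) (h2 : 12 ^ 3 * 3 ^ 5 * 3 ^ (3 * 3) * M ^ 3 * K ≤ V ^ (3 + 1))
    (hk : 8 * M ≤ k) (hn : 8 * M * (I * d ^ 3) + (k - 8 * M) ≤ n)
    (h3 : 128 * p * (4 * ρ * e) ≤ d ^ 6) (h4 : 2 * (4 * ρ * e) * e ≤ d ^ 6)
    (h5 : (M * d ^ 6 + 1) ^ K * 64 ^ l ≤ 2 ^ g)
    (h6 : 8 * (I * I) * (d ^ 6) ^ (3 * V) * (g * ρ) ^ M ≤ e ^ M) (h7 : 2 * a < I * I)
    (hp : 1 ≤ p) (hq : 1 ≤ q) (hl : 1 ≤ l) (hK : (q + 1) * l ≤ K)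
    (C : Circuit n s p q) (out : Fin s) {θ : ℝ}
    (hC : ∀ G : SimpleGraph (Fin n), θ ≤ C.val out G ↔ ¬ G.CliqueFree k)
    (hch : ∀ (m : ℕ) (H : ℕ → SimpleGraph (Fin n)), Monotone H → (∀ j, (H j).CliqueFree k) →
      C.changes H m ≤ a) : (64 : ℝ) ^ l < 16 * ((s : ℝ) + 1) := by
  have : NeZero d := ⟨by omega⟩
  have : NeZero e := ⟨by omega⟩
  obtain ⟨H, hexp⟩ := H13.exists_expanding (K := 3) (V := V) (M := M) (c := K) (β := 3)
    (a := 5) le_rfl (by norm_num) (by norm_num) hV h1 h2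
  obtain ⟨G, hG1, hG2, hG3, hG4⟩ := gadget (I := I) (d := d) H hM hk hn
  let X := Fin M × Sy d
  let A := Fin 3 × Fin V → Sy d
  let Ω := Fin g → Fin ρ → X → Fin e
  let N : Ω → Finset X := fun w => H13.Neg w
  let Y : A → Finset X := fun α => Yh H α
  have hcardΓ : Fintype.card (Sy d) = d ^ 6 := by
    rw [Fintype.card_fun, Fintype.card_fun, ZMod.card, Fintype.card_fin, Fintype.card_fin,
      ← pow_mul]
  have hcardA : Fintype.card (Fin 3 × Fin V → Sy d) = (d ^ 6) ^ (3 * V) := by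
    rw [Fintype.card_fun, Fintype.card_prod, Fintype.card_fin, Fintype.card_fin, hcardΓ]
  have hcardX : Fintype.card (Fin M × Sy d) = M * d ^ 6 := by
    rw [Fintype.card_prod, Fintype.card_fin, hcardΓ]
  have hρ' : (1 : ℝ) ≤ ρ := by exact_mod_cast hρ
  have he' : (1 : ℝ) ≤ e := by exact_mod_cast he
  have he0 : (0 : ℝ) < e := by linarith
  have hΩ0 : 0 < Fintype.card Ω := Fintype.card_pos
  have hA0 : 0 < Fintype.card A := Fintype.card_pos
  have hdata : Data N Y l K (p : ℝ) ((4 * ρ : ℝ) * e) ((d : ℝ) ^ 6) 64 ((1 / 2) ^ g) :=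
    { hL := hl
      hp := by exact_mod_cast hp
      hR := by nlinarith
      hB := by norm_num
      hQ := by
        have : ((128 * p * (4 * ρ * e) : ℕ) : ℝ) ≤ ((d ^ 6 : ℕ) : ℝ) := by exact_mod_cast h3
        push_cast at this
        linarith
      hδ := by positivity
      hδ1 := pow_lt_one₀ (by norm_num) (by norm_num) (by omega)
      hΩ := hΩ0
      hA := hA0
      hcover := fun J hJ hsize hsp => H13.neg_cover (by omega) hρ hρK J hJ hsize hsp
      hpos := fun S hS => by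
        have h1 := hash_spread (Γ := Sy d) (uniq_of_expanding hexp) S hS
        rw [hcardΓ] at h1
        push_cast at h1
        exact h1
      hneg := by
        have h8 := H13.card_small_sets (X := X) K
        rw [hcardX] at h8
        have h9 : (univ.filter (fun T : Finset X => T.card ≤ K)).card * 64 ^ l ≤ 2 ^ g :=
          (Nat.mul_le_mul_right _ h8).trans h5
        have h10 : ((univ.filter (fun T : Finset X => T.card ≤ K)).card : ℝ) * 64 ^ l ≤ 2 ^ g := by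
          exact_mod_cast h9
        rw [div_pow, div_pow, one_pow, one_pow, mul_one_div, div_le_div_iff₀ (by positivity)
          (by positivity)]
        linarith }
  refine abs_bound (J := I * I) (k := k) (l := k) (a := a) (θ := θ) hdata hq hK
    (σ := 1 / (e : ℝ)) (by positivity)
    (fun S _ => noise_ge hg hρ (by omega) S) (by
      rw [mul_one_div, le_div_iff₀ he0]
      have : ((2 * (4 * ρ * e) * e : ℕ) : ℝ) ≤ ((d ^ 6 : ℕ) : ℝ) := by
        exact_mod_cast h4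
      push_cast at this
      exact this) G hG1 hG2 hG3 ?_ C out (fun G hG => (hC G).2 hG)
    (fun G hG => not_le.1 fun h => (hC G).1 h hG) hch h7
  set tot : ℝ := (Fintype.card (Fin (I * I) → Ω) : ℝ) with htot
  have htot0 : 0 < tot := by
    rw [htot]
    have : Nonempty (Fin (I * I) → Ω) := ⟨fun _ => Classical.choice
      (Fintype.card_pos_iff.1 hΩ0)⟩
    exact_mod_cast Fintype.card_pos
  have hΩR : (0 : ℝ) < Fintype.card Ω := by exact_mod_cast hΩ0
  -- one bad event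
  have hone : ∀ z : Fin (I * I) × (Fin 3 × Fin V → Sy d),
      cnt (fun ω : Fin (I * I) → Ω => put z.1 (Yh H z.2) ⊆ pre N ω (I * I)) *
        (e : ℝ) ^ M ≤ ((g * ρ : ℕ) : ℝ) ^ M * tot := by
    intro z
    have e1 : cnt (fun ω : Fin (I * I) → Ω => put z.1 (Yh H z.2) ⊆ pre N ω (I * I)) ≤
        cnt (fun ω : Fin (I * I) → Ω => Yh H z.2 ⊆ N (ω z.1)) := by
      apply H13.cnt_mono
      rintro ω hω a ha
      have := hω (mem_put.2 ⟨rfl, ha⟩ : ((z.1, a) : Fin (I * I) × X) ∈ put z.1 (Yh H z.2))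
      unfold pre at this
      exact (Finset.mem_filter.1 this).2.2
    have e2 := block_contains z.1 (fun w : Ω => Yh H z.2 ⊆ N w)
    have e3 : cnt (fun w : Ω => Yh H z.2 ⊆ N w) * (e : ℝ) ^ M ≤
        ((g * ρ : ℕ) : ℝ) ^ M * Fintype.card Ω := by
      have := noise_le (g := g) (ρ := ρ) (e := e) (by omega) (Yh H z.2)
      rwa [card_Yh] at this
    refine (mul_le_mul_of_nonneg_right e1 (by positivity)).trans ?_
    rw [← mul_le_mul_iff_left₀ hΩR]
    calc cnt (fun ω : Fin (I * I) → Ω => Yh H z.2 ⊆ N (ω z.1)) * (e : ℝ) ^ M *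
          Fintype.card Ω = cnt (fun ω : Fin (I * I) → Ω => Yh H z.2 ⊆ N (ω z.1)) *
          Fintype.card Ω * (e : ℝ) ^ M := by ring
      _ = cnt (fun w : Ω => Yh H z.2 ⊆ N w) * tot * (e : ℝ) ^ M := by rw [e2]
      _ = cnt (fun w : Ω => Yh H z.2 ⊆ N w) * (e : ℝ) ^ M * tot := by ring
      _ ≤ ((g * ρ : ℕ) : ℝ) ^ M * Fintype.card Ω * tot :=
          mul_le_mul_of_nonneg_right e3 htot0.le
      _ = _ := by ring
  have e1 : cnt (fun ω : Fin (I * I) → Ω => ¬ (G (pre N ω (I * I))).CliqueFree k) ≤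
      ∑ z : Fin (I * I) × (Fin 3 × Fin V → Sy d),
      cnt (fun ω : Fin (I * I) → Ω => put z.1 (Yh H z.2) ⊆ pre N ω (I * I)) := by
    refine le_trans (H13.cnt_mono (Q := fun ω : Fin (I * I) → Ω =>
      ∃ z ∈ (univ : Finset (Fin (I * I) × (Fin 3 × Fin V → Sy d))),
      put z.1 (Yh H z.2) ⊆ pre N ω (I * I)) ?_)
      (H13.cnt_exists _ _)
    intro ω hω
    obtain ⟨c, α, h8⟩ := hG4 _ hω
    exact ⟨(c, α), Finset.mem_univ _, h8⟩
  have heM : (0 : ℝ) < (e : ℝ) ^ M := by positivity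
  refine e1.trans ?_
  rw [← mul_le_mul_iff_left₀ heM, Finset.sum_mul]
  refine (Finset.sum_le_sum fun z _ => hone z).trans ?_
  rw [Finset.sum_const, nsmul_eq_mul, Finset.card_univ, Fintype.card_prod, Fintype.card_fin,
    hcardA]
  have h8 : ((8 * (I * I) * (d ^ 6) ^ (3 * V) * (g * ρ) ^ M : ℕ) : ℝ) ≤
      ((e ^ M : ℕ) : ℝ) := by exact_mod_cast h6
  push_cast at h8 ⊢
  have h9 := mul_le_mul_of_nonneg_right h8 htot0.le
  linarith

end Pool.Agent.H78.KC
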