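import Mathlib

/-!
ROW Par.  Natural number parameters (Mathlib only).

Put `V = 2^44 L³ K`, `M = 11 V L`, `g = 9 L K`, `ρ = L`, `e = 2 g ρ`, `I = Nat.sqrt (2a) + 1` (`2a < I² ≤ 8 (a+1)`), `d` the largest number with `16 M I d³ ≤ n`
(`d ≥ 1` since `(16 M I)² ≤ 2^11 M² (a+1) = 2^11 · 121 · 2^88 L^8 K² (a+1) ≤ 2^106 L^8 K² (a+1) ≤ n²`; `n < 16 M I (d+1)³ ≤ 128 M I d³`, so `n² < 2^14 M² I² d^6 ≤ 2^17 M² (a+1) d^6`).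
* `K < 2 ^ ρ`: `K ≤ k < n ≤ 2 ^ L`.
* `5K ≤ 3 (3V)` clear; `12³ 3⁵ 3⁹ M³ K ≤ V⁴`: `12³ 3⁵ 3⁹ ≤ 2^33`, `M³ = 1331 V³ L³`, `1331 ≤ 2^11`, `2^44 L³ K = V`.
* `8 M = 88 V L = 88 · 2^44 L⁴ K ≤ 2^51 L⁴ K ≤ k`.
* `8 M (I d³) ≤ n/2` and `k ≤ n/2`.
* `128 p (4ρe) = 128 p · 72 L³ K ≤ d^6`: otherwise `n² < 2^17 M² (a+1) d^6 < 2^17 · 121 · 2^88 L^8 K² (a+1) · 9216 p L³ K ≤ 2^126 L^11 K³ p (a+1) ≤ n²`.
* `2 (4ρe) e = 2592 L^5 K² ≤ d^6`: otherwise `n² < 2^17 · 121 · 2^88 L^8 K² (a+1) · 2592 L^5 K² ≤ 2^126 L^13 K⁴ (a+1) ≤ n²`.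
* `(M d^6 + 1)^K 64^l ≤ 2^g`: `M d^6 + 1 ≤ n² ≤ 2^(2L)`, `6l ≤ 3K` (`2l ≤ K`).
* `8 I² (d^6)^(3V) (gρ)^M ≤ e^M = 2^M (gρ)^M`: `I d³ ≤ n`, `I² d^6 ≤ n²`, `d^6 ≤ n²`, so `I² (d^6)^(3V) ≤ n^(6V) ≤ 2^(6VL)` and `3 + 6VL ≤ M`.
-/

namespace Pool.Agent.H78.KC

theorem Par_I (a : ℕ) : ∃ I : ℕ, 1 ≤ I ∧ 2 * a < I * I ∧ I * I ≤ 8 * (a + 1) := by
  refine ⟨Nat.sqrt (2 * a) + 1, by omega, Nat.lt_succ_sqrt (2 * a), ?_⟩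
  have h1 := Nat.sqrt_le (2 * a)
  obtain ⟨s, hs⟩ : ∃ s, s = Nat.sqrt (2 * a) := ⟨_, rfl⟩
  rw [← hs] at h1 ⊢
  rcases Nat.eq_zero_or_pos s with h | h
  · subst h
    omega
  · nlinarith

theorem Par_d {W n : ℕ} (hW : 1 ≤ W) (h : W ≤ n) : ∃ d : ℕ, 1 ≤ d ∧ W * d ^ 3 ≤ n ∧ n < W * (d + 1) ^ 3 := by
  have hex : ∃ d, n < W * (d + 1) ^ 3 := by
    refine ⟨n, ?_⟩
    have h1 : n + 1 ≤ (n + 1) ^ 3 := Nat.le_self_pow (by norm_num) _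
    nlinarith
  classical
  obtain ⟨d, hd, hmin⟩ : ∃ d, n < W * (d + 1) ^ 3 ∧ ∀ e < d, ¬ n < W * (e + 1) ^ 3 :=
    ⟨Nat.find hex, Nat.find_spec hex, fun e he => Nat.find_min hex he⟩
  rcases Nat.eq_zero_or_pos d with h0 | h0
  · subst h0
    simp at hd
    omega
  · have h2 := hmin (d - 1) (by omega)
    rw [Nat.sub_add_cancel h0] at h2
    exact ⟨d, h0, not_lt.1 h2, hd⟩

theorem params {n L l K k p a : ℕ} (hL : 1 ≤ L) (hl : L ≤ l) (hn : n ≤ 2 ^ L) (hlK : 2 * l ≤ K)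
    (hk : 2 ^ 51 * (K * L ^ 4) ≤ k) (hkn : 2 * k ≤ n) (hp : 1 ≤ p)
    (h : 2 ^ 126 * (K ^ 4 * L ^ 13) * (p * (a + 1)) ≤ n ^ 2) :
    ∃ V M I d g ρ e : ℕ, 1 ≤ V ∧ 1 ≤ M ∧ 1 ≤ I ∧ 1 ≤ d ∧ 1 ≤ g ∧ 1 ≤ ρ ∧ 1 ≤ e ∧ K < 2 ^ ρ ∧
      5 * K ≤ 3 * (3 * V) ∧ 12 ^ 3 * 3 ^ 5 * 3 ^ (3 * 3) * M ^ 3 * K ≤ V ^ (3 + 1) ∧
      8 * M ≤ k ∧ 8 * M * (I * d ^ 3) + (k - 8 * M) ≤ n ∧
      128 * p * (4 * ρ * e) ≤ d ^ 6 ∧ 2 * (4 * ρ * e) * e ≤ d ^ 6 ∧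
      (M * d ^ 6 + 1) ^ K * 64 ^ l ≤ 2 ^ g ∧
      8 * (I * I) * (d ^ 6) ^ (3 * V) * (g * ρ) ^ M ≤ e ^ M ∧ 2 * a < I * I := by
  have hK : 1 ≤ K := by omega
  have hLp : ∀ i, 1 ≤ L ^ i := fun i => Nat.one_le_pow _ _ hL
  have hKp : ∀ i, 1 ≤ K ^ i := fun i => Nat.one_le_pow _ _ hK
  obtain ⟨V, hV⟩ : ∃ V : ℕ, V = 2 ^ 44 * L ^ 3 * K := ⟨_, rfl⟩
  obtain ⟨M, hM⟩ : ∃ M : ℕ, M = 11 * V * L := ⟨_, rfl⟩
  have hV1 : 1 ≤ V := by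
    rw [hV]
    exact Nat.mul_pos (Nat.mul_pos (by norm_num) (hLp 3)) hK
  have hM1 : 1 ≤ M := by
    rw [hM]
    exact Nat.mul_pos (Nat.mul_pos (by norm_num) hV1) hL
  have hM2 : M ^ 2 = 121 * 2 ^ 88 * (L ^ 8 * K ^ 2) := by
    rw [hM, hV]
    ring
  obtain ⟨I, hI1, hIa, hI8⟩ := Par_I a
  -- comparison of powers
  have hpow : ∀ c i j : ℕ, i ≤ 4 → j ≤ 13 → ∀ z ≤ p * (a + 1), c ≤ 2 ^ 126 →
      c * (K ^ i * L ^ j) * z ≤ n ^ 2 := by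
    intro c i j hi hj z hz hc
    refine le_trans ?_ h
    have h1 : K ^ i ≤ K ^ 4 := Nat.pow_le_pow_right hK hi
    have h2 : L ^ j ≤ L ^ 13 := Nat.pow_le_pow_right hL hj
    exact Nat.mul_le_mul (Nat.mul_le_mul hc (Nat.mul_le_mul h1 h2)) hz
  have hap : a + 1 ≤ p * (a + 1) := Nat.le_mul_of_pos_left _ hp
  have hW : 16 * M * I ≤ n := by
    have h1 : (16 * M * I) ^ 2 ≤ n ^ 2 := by
      calc (16 * M * I) ^ 2 = 256 * M ^ 2 * (I * I) := by ring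
        _ ≤ 256 * M ^ 2 * (8 * (a + 1)) := Nat.mul_le_mul_left _ hI8
        _ = (2 ^ 11 * 121 * 2 ^ 88) * (K ^ 2 * L ^ 8) * (a + 1) := by rw [hM2]; ring
        _ ≤ n ^ 2 := hpow _ 2 8 (by norm_num) (by norm_num) _ hap (by norm_num)
    exact (Nat.pow_le_pow_iff_left (by norm_num)).1 h1
  obtain ⟨d, hd1, hdn, hdn'⟩ := Par_d (W := 16 * M * I) (Nat.mul_pos (Nat.mul_pos (by norm_num) hM1) hI1) hW
  -- n ^ 2 is small in terms of d ^ 6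
  have hnd : n ^ 2 < 2 ^ 17 * (121 * 2 ^ 88) * (K ^ 2 * L ^ 8) * (a + 1) * d ^ 6 := by
    have h1 : (d + 1) ^ 3 ≤ 8 * d ^ 3 := by
      calc (d + 1) ^ 3 ≤ (2 * d) ^ 3 := Nat.pow_le_pow_left (by omega) 3
        _ = 8 * d ^ 3 := by ring
    have h2 : n < 16 * M * I * (8 * d ^ 3) := lt_of_lt_of_le hdn' (Nat.mul_le_mul_left _ h1)
    calc n ^ 2 < (16 * M * I * (8 * d ^ 3)) ^ 2 := Nat.pow_lt_pow_left h2 (by norm_num)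
      _ = 2 ^ 14 * M ^ 2 * d ^ 6 * (I * I) := by ring
      _ ≤ 2 ^ 14 * M ^ 2 * d ^ 6 * (8 * (a + 1)) := Nat.mul_le_mul_left _ hI8
      _ = 2 ^ 17 * (121 * 2 ^ 88) * (K ^ 2 * L ^ 8) * (a + 1) * d ^ 6 := by rw [hM2]; ring
  have hd6 : ∀ Z : ℕ, 2 ^ 17 * (121 * 2 ^ 88) * (K ^ 2 * L ^ 8) * (a + 1) * Z ≤ n ^ 2 → Z ≤ d ^ 6 := by
    intro Z hZ
    by_contra hc
    push Not at hc
    have h1 : 2 ^ 17 * (121 * 2 ^ 88) * (K ^ 2 * L ^ 8) * (a + 1) * d ^ 6 ≤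
        2 ^ 17 * (121 * 2 ^ 88) * (K ^ 2 * L ^ 8) * (a + 1) * Z := Nat.mul_le_mul_left _ hc.le
    omega
  have hMd : M * d ^ 6 + 1 ≤ n ^ 2 := by
    have h1 : (16 * M * I * d ^ 3) ^ 2 ≤ n ^ 2 := Nat.pow_le_pow_left hdn 2
    have h2 : (16 * M * I * d ^ 3) ^ 2 = 256 * (M * I * I) * (M * d ^ 6) := by ring
    have h3 : 1 ≤ M * I * I := Nat.mul_pos (Nat.mul_pos hM1 hI1) hI1
    have h4 : 1 ≤ M * d ^ 6 := Nat.mul_pos hM1 (Nat.one_le_pow _ _ hd1)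
    nlinarith
  have hId : I * I * d ^ 6 ≤ n ^ 2 := by
    have h1 : (16 * M * I * d ^ 3) ^ 2 ≤ n ^ 2 := Nat.pow_le_pow_left hdn 2
    have h2 : (16 * M * I * d ^ 3) ^ 2 = 256 * (M * M) * (I * I * d ^ 6) := by ring
    have h3 : 1 ≤ M * M := Nat.mul_pos hM1 hM1
    have h4 : I * I * d ^ 6 ≤ 256 * (M * M) * (I * I * d ^ 6) :=
      Nat.le_mul_of_pos_left _ (by omega)
    omega
  have hn2 : n ^ 2 ≤ 2 ^ (2 * L) := by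
    calc n ^ 2 ≤ (2 ^ L) ^ 2 := Nat.pow_le_pow_left hn 2
      _ = 2 ^ (2 * L) := by rw [← pow_mul, Nat.mul_comm]
  refine ⟨V, M, I, d, 9 * L * K, L, 2 * (9 * L * K) * L, hV1, hM1, hI1, hd1,
    Nat.mul_pos (Nat.mul_pos (by norm_num) hL) hK, hL,
    Nat.mul_pos (Nat.mul_pos (by norm_num) (Nat.mul_pos (Nat.mul_pos (by norm_num) hL) hK)) hL, ?_, ?_, ?_, ?_, ?_,
    ?_, ?_, ?_, ?_, hIa⟩
  · -- K < 2 ^ L
    have h1 : K ≤ k := by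
      refine le_trans ?_ hk
      calc K = 1 * (K * 1) := by ring
        _ ≤ 2 ^ 51 * (K * L ^ 4) := Nat.mul_le_mul (by norm_num) (Nat.mul_le_mul_left _ (hLp 4))
    omega
  · have h1 : K ≤ V := by
      rw [hV]
      calc K = 1 * 1 * K := by ring
        _ ≤ 2 ^ 44 * L ^ 3 * K := Nat.mul_le_mul_right _ (Nat.mul_le_mul (by norm_num) (hLp 3))
    omega
  · have h1 : V ^ (3 + 1) = V ^ 3 * (2 ^ 44 * L ^ 3 * K) := by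
      rw [pow_succ, ← hV]
    have h2 : 12 ^ 3 * 3 ^ 5 * 3 ^ (3 * 3) * M ^ 3 * K =
        V ^ 3 * ((12 ^ 3 * 3 ^ 5 * 3 ^ (3 * 3) * 1331) * L ^ 3 * K) := by
      rw [hM]
      ring
    rw [h1, h2]
    refine Nat.mul_le_mul_left _ (Nat.mul_le_mul_right _ (Nat.mul_le_mul_right _ ?_))
    norm_num
  · refine le_trans ?_ hk
    rw [hM, hV]
    calc 8 * (11 * (2 ^ 44 * L ^ 3 * K) * L) = (88 * 2 ^ 44) * (K * L ^ 4) := by ring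
      _ ≤ 2 ^ 51 * (K * L ^ 4) := Nat.mul_le_mul_right _ (by norm_num)
  · have h1 : 16 * M * I * d ^ 3 = 2 * (8 * M * (I * d ^ 3)) := by ring
    omega
  · refine hd6 _ ?_
    calc 2 ^ 17 * (121 * 2 ^ 88) * (K ^ 2 * L ^ 8) * (a + 1) * (128 * p * (4 * L * (2 * (9 * L * K) * L)))
        = (2 ^ 17 * (121 * 2 ^ 88) * 9216) * (K ^ 3 * L ^ 11) * (p * (a + 1)) := by ring
      _ ≤ n ^ 2 := hpow _ 3 11 (by norm_num) (by norm_num) _ le_rfl (by norm_num)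
  · refine hd6 _ ?_
    calc 2 ^ 17 * (121 * 2 ^ 88) * (K ^ 2 * L ^ 8) * (a + 1) *
          (2 * (4 * L * (2 * (9 * L * K) * L)) * (2 * (9 * L * K) * L))
        = (2 ^ 17 * (121 * 2 ^ 88) * 2592) * (K ^ 4 * L ^ 13) * (a + 1) := by ring
      _ ≤ n ^ 2 := hpow _ 4 13 (by norm_num) (by norm_num) _ hap (by norm_num)
  · calc (M * d ^ 6 + 1) ^ K * 64 ^ l ≤ (2 ^ (2 * L)) ^ K * 64 ^ l :=
          Nat.mul_le_mul_right _ (Nat.pow_le_pow_left (hMd.trans hn2) K)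
      _ = 2 ^ (2 * L * K + 6 * l) := by
          have h1 : (64 : ℕ) = 2 ^ 6 := by norm_num
          rw [h1, ← pow_mul, ← pow_mul, ← pow_add]
      _ ≤ 2 ^ (9 * L * K) := by
          apply Nat.pow_le_pow_right (by norm_num)
          have h2 : K ≤ L * K := Nat.le_mul_of_pos_left _ hL
          nlinarith
  · have h1 : (2 * (9 * L * K) * L) ^ M = 2 ^ M * (9 * L * K * L) ^ M := by
      rw [← mul_pow]
      congr 1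
      ring
    rw [h1]
    refine Nat.mul_le_mul_right _ ?_
    have h2 : I * I ≤ (I * I) ^ (3 * V) := Nat.le_self_pow (by omega) _
    calc 8 * (I * I) * (d ^ 6) ^ (3 * V) ≤ 8 * (I * I) ^ (3 * V) * (d ^ 6) ^ (3 * V) :=
          Nat.mul_le_mul_right _ (Nat.mul_le_mul_left _ h2)
      _ = 8 * (I * I * d ^ 6) ^ (3 * V) := by rw [mul_assoc, ← mul_pow]
      _ ≤ 8 * (2 ^ (2 * L)) ^ (3 * V) := Nat.mul_le_mul_left _ (Nat.pow_le_pow_left (hId.trans hn2) _)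
      _ = 2 ^ (3 + 2 * L * (3 * V)) := by
          rw [← pow_mul, pow_add]
          norm_num
      _ ≤ 2 ^ M := by
          apply Nat.pow_le_pow_right (by norm_num)
          rw [hM]
          have h3 : 1 ≤ V * L := Nat.mul_pos hV1 hL
          nlinarith

end Pool.Agent.H78.KC
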