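import Pool.Agent.H78.KC.Expl
import Pool.Agent.H78.KC.Par
import Pool.Agent.H78.KW.Lev
import Pool.Agent.H78.KW.Few

/-!
The lower bound for CLIQUE with gates of large fan-in.
-/

namespace Pool.Agent.H78.KC

open Finset
open Pool.Agent.H78.KW (Circuit changes_levels changes_few)

theorem main_chain {n L l k s p q : ℕ} (hL : 1 ≤ L) (hl : L ≤ l) (hn : n ≤ 2 ^ L)
    (hk : 2 ^ 51 * ((q + 1) * l * L ^ 4) ≤ k) (hkn : 2 * k ≤ n) (hp : 1 ≤ p) (hq : 1 ≤ q)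
    (hs : s ≤ 2 ^ l) (C : Circuit n s p q) (out : Fin s) (θ : ℝ)
    (hC : ∀ G : SimpleGraph (Fin n), θ ≤ C.val out G ↔ ¬ G.CliqueFree k) :
    ∃ (m : ℕ) (H : ℕ → SimpleGraph (Fin n)), Monotone H ∧ (∀ j, (H j).CliqueFree k) ∧
      n ^ 2 < 2 ^ 126 * (((q + 1) * l) ^ 4 * L ^ 13) * (p * (C.changes H m + 1)) := by
  by_contra hcon
  push Not at hcon
  set c : ℕ := 2 ^ 126 * (((q + 1) * l) ^ 4 * L ^ 13) * p with hc
  have hl1 : 1 ≤ l := hL.trans hl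
  have hc0 : 0 < c := by
    have h1 : 0 < (q + 1) * l := Nat.mul_pos (by omega) (by omega)
    have h2 : 0 < L := by omega
    have h3 : 0 < p := by omega
    rw [hc]
    positivity
  have hk2 : 2 ≤ k := by
    have h1 : 0 < (q + 1) * l * L ^ 4 := by
      have h1 : 0 < (q + 1) * l := Nat.mul_pos (by omega) (by omega)
      have h2 : 0 < L := by omega
      positivity
    have h2 : 2 ^ 51 * 1 ≤ 2 ^ 51 * ((q + 1) * l * L ^ 4) := Nat.mul_le_mul_left _ h1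
    omega
  set b : ℕ := n ^ 2 / c with hb
  have hbound : ∀ (m : ℕ) (H : ℕ → SimpleGraph (Fin n)), Monotone H →
      (∀ j, (H j).CliqueFree k) → C.changes H m + 1 ≤ b := by
    intro m H h1 h2
    have h3 := hcon m H h1 h2
    rw [hb, Nat.le_div_iff_mul_le hc0]
    calc (C.changes H m + 1) * c = 2 ^ 126 * (((q + 1) * l) ^ 4 * L ^ 13) *
          (p * (C.changes H m + 1)) := by rw [hc]; ring
      _ ≤ n ^ 2 := h3
  have hbot : Monotone fun _ : ℕ => (⊥ : SimpleGraph (Fin n)) := fun _ _ _ => le_rfl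
  have hb1 : 1 ≤ b := by
    have := hbound 0 _ hbot fun _ => SimpleGraph.cliqueFree_bot hk2
    omega
  have hpar : 2 ^ 126 * (((q + 1) * l) ^ 4 * L ^ 13) * (p * ((b - 1) + 1)) ≤ n ^ 2 := by
    rw [Nat.sub_add_cancel hb1]
    calc 2 ^ 126 * (((q + 1) * l) ^ 4 * L ^ 13) * (p * b) = b * c := by rw [hc]; ring
      _ ≤ n ^ 2 := Nat.div_mul_le_self _ _
  obtain ⟨V, M, I, d, g, ρ, e, h1, h2, h3, h4, h5, h6, h7, h8, h9, h10, h11, h12, h13, h14, h15,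
    h16, h17⟩ := params (K := (q + 1) * l) (a := b - 1) hL hl hn
      (Nat.mul_le_mul_right _ (by omega)) hk hkn hp hpar
  have hmain := explicit (a := b - 1) h1 h2 h3 h4 h5 h6 h7 h8 h9 h10 h11 h12 h13 h14 h15 h16 h17
    hp hq hl1 le_rfl C out hC (fun m H h18 h19 => by
      have := hbound m H h18 h19
      omega)
  have hsR : (s : ℝ) ≤ 2 ^ l := by exact_mod_cast hs
  have e1 : (64 : ℝ) ^ l = 2 ^ l * 32 ^ l := by
    rw [← mul_pow]
    norm_num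
  have e2 : (32 : ℝ) ≤ 32 ^ l := le_self_pow₀ (by norm_num) (by omega)
  have e3 : (1 : ℝ) ≤ 2 ^ l := one_le_pow₀ (by norm_num)
  rw [e1] at hmain
  nlinarith

theorem main {n L l k s p q : ℕ} (hL : 1 ≤ L) (hl : L ≤ l) (hn : n ≤ 2 ^ L)
    (hk : 2 ^ 51 * ((q + 1) * l * L ^ 4) ≤ k) (hkn : 2 * k ≤ n) (hp : 1 ≤ p) (hq : 1 ≤ q)
    (hs : s ≤ 2 ^ l) (C : Circuit n s p q) (out : Fin s) (θ : ℝ)
    (hC : ∀ G : SimpleGraph (Fin n), θ ≤ C.val out G ↔ ¬ G.CliqueFree k) :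
    (∃ (m : ℕ) (H : ℕ → SimpleGraph (Fin n)), Monotone H ∧ (∀ j, (H j).CliqueFree k) ∧
      n ^ 2 < 2 ^ 126 * (((q + 1) * l) ^ 4 * L ^ 13) * (p * (C.changes H m + 1))) ∧
    (∀ (lev : Fin s → ℕ) (D : ℕ), C.IsLevel lev → (∀ x ∈ C.watched, lev x.1 < D) →
      n ^ 2 < 2 ^ 126 * (((q + 1) * l) ^ 4 * L ^ 13) *
        (p * ∏ a ∈ range D, (1 + C.watchedAt lev a))) ∧
    ∀ r t : ℕ, C.special.card ≤ r → (∀ i ∈ C.special, (C.tests i).card ≤ t) →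
      (∀ i ∈ C.special, ∀ G, C.val i G = 0 ∨ C.val i G = 1) →
      n ^ 2 < 2 ^ 126 * (((q + 1) * l) ^ 4 * L ^ 13) * (p * (t * (2 ^ r - 1) + 1)) := by
  obtain ⟨m, H, h1, h2, h3⟩ := main_chain hL hl hn hk hkn hp hq hs C out θ hC
  refine ⟨⟨m, H, h1, h2, h3⟩, fun lev D hlev hD => ?_, fun r t hr ht h01 => ?_⟩
  · exact h3.trans_le (Nat.mul_le_mul_left _ (Nat.mul_le_mul_left _
      (changes_levels C lev hlev D hD H h1 m)))
  · exact h3.trans_le (Nat.mul_le_mul_left _ (Nat.mul_le_mul_left _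
      (Nat.add_le_add_right (changes_few C hr ht h01 H h1 m) 1)))

end Pool.Agent.H78.KC
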